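import Mathlib
import Pool.Agent.H.MP_6a38e0_lc.A

set_option autoImplicit false

namespace Pool.Agent.Results.MP_6a38e0_lc.No

open Cardinal Pool.Agent.H.MP_6a38e0_lc

theorem result : (∃ B : Set ℝ, MeasurableSet B ∧ (∃ X, ¬ X.Countable ∧ DT B X) ∧
    ∀ X, DT B X → #X ≤ ℵ₁) ∧ ((∀ B : Set ℝ, MeasurableSet B → (∃ X, ¬ X.Countable ∧ DT B X) →
      ∃ X : Set ℝ, #X = 𝔠 ∧ DT B X) ↔ (𝔠 : Cardinal.{0}) = ℵ₁) := by
  refine ⟨main, fun h => ?_, fun h B _ ⟨X, p, q⟩ => ⟨X, ?_, q⟩⟩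
  · obtain ⟨B, b, p, q⟩ := main
    obtain ⟨X, e, d⟩ := h B b p
    exact (e ▸ q X d).antisymm aleph_one_le_continuum
  exact ((mk_set_le X).trans_eq mk_real).antisymm (h ▸ not_lt.1 fun l =>
    p (le_aleph0_iff_set_countable.1 (lt_aleph_one_iff.1 l)))

end Pool.Agent.Results.MP_6a38e0_lc.No
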